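import Pool.Agent.Helper75.Slab.Goals

/-!
MP_beb0a8_an, packet SLAB-CURVE : approximate integral curves of a continuous field, parametrised by
height.
-/

set_option autoImplicit false

open Set

namespace Pool.Agent.Helper29.Slab

open Pool.Agent.Helper75.Slab
open Pool.Agent.Helper75.Flow (LipField IsFlow G_FL1 G_FL2 G_FL3)

theorem trunc_lip (c a b : ℝ) :
    |max (-c) (min a c) - max (-c) (min b c)| ≤ |a - b| := by
  rcases le_total a c with h1 | h1 <;> rcases le_total b c with h2 | h2 <;>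
  simp only [min_eq_left, min_eq_right, h1, h2] <;>
  rw [abs_le] <;> constructor <;>
  · rcases le_abs_self (a - b), neg_abs_le (a - b) with ⟨h3, h4⟩
    rcases max_cases (-c) a with h5 | h5 <;> rcases max_cases (-c) b with h6 | h6 <;>
    rcases max_cases (-c) c with h7 | h7 <;>
    linarith [le_abs_self (a - b), neg_abs_le (a - b), h5.1, h5.2, h6.1, h6.2, h7.1, h7.2]

/-- Lipschitz approximation of a continuous function on a compact set -/
theorem lip_approx (D : Set E) (hD : IsCompact D) (hne : D.Nonempty) (h : E → ℝ)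
    (hc : ContinuousOn h D) (c : ℝ) (hb : ∀ x ∈ D, |h x| ≤ c) (d : ℝ) (hd : 0 < d) :
    ∃ (K : ℝ) (H : E → ℝ), 0 ≤ K ∧ (∀ x y, |H x - H y| ≤ K * ‖x - y‖) ∧ (∀ x, |H x| ≤ c) ∧
      ∀ x ∈ D, |H x - h x| ≤ d := by
  have hu := hD.uniformContinuousOn_of_continuous hc
  rw [Metric.uniformContinuousOn_iff] at hu
  obtain ⟨r, hr, hu⟩ := hu d hd
  have hc0 : 0 ≤ c := by
    obtain ⟨x, hx⟩ := hne
    exact (abs_nonneg _).trans (hb x hx)
  have : Nonempty D := hne.to_subtype
  obtain ⟨n, hn⟩ : ∃ n : ℝ, n = 2 * c / r := ⟨_, rfl⟩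
  have hn0 : 0 ≤ n := by rw [hn]; positivity
  have hnr : n * r = 2 * c := by rw [hn]; field_simp
  obtain ⟨G, hG⟩ : ∃ G : E → ℝ, G = fun x : E => ⨅ q : D, (h q + n * dist x (q : E)) := ⟨_, rfl⟩
  have hbdd : ∀ x : E, BddBelow (range (fun q : D => h q + n * dist x (q : E))) := by
    intro x
    refine ⟨-c, ?_⟩
    rintro _ ⟨q, rfl⟩
    have h1 := (abs_le.1 (hb q q.2)).1
    have h2 : 0 ≤ n * dist x q := by positivity
    simp only
    linarith
  have hle : ∀ (x : E) (q : D), G x ≤ h q + n * dist x (q : E) := by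
    intro x q
    rw [hG]
    exact ciInf_le (hbdd x) q
  have hLip : ∀ x y, G x ≤ G y + n * dist x y := by
    intro x y
    have : G x - n * dist x y ≤ G y := by
      have e : G y = ⨅ q : D, (h q + n * dist y q) := by rw [hG]
      rw [e]
      apply le_ciInf
      intro q
      have h1 := hle x q
      have h2 := dist_triangle x y q
      have h3 := mul_le_mul_of_nonneg_left h2 hn0
      rw [mul_add] at h3
      linarith
    linarith
  have hup : ∀ x ∈ D, G x ≤ h x := by
    intro x hx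
    have := hle x ⟨x, hx⟩
    simpa using this
  have hlo : ∀ x ∈ D, h x - d ≤ G x := by
    intro x hx
    have e : G x = ⨅ q : D, (h q + n * dist x q) := by rw [hG]
    rw [e]
    apply le_ciInf
    intro q
    by_cases hq : dist x q < r
    · have h1 := hu x hx q q.2 hq
      rw [Real.dist_eq] at h1
      have h2 := (abs_lt.1 h1).2
      have h3 : 0 ≤ n * dist x q := by positivity
      linarith
    · have h1 : n * r ≤ n * dist x q := mul_le_mul_of_nonneg_left (not_lt.1 hq) hn0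
      have h2 := (abs_le.1 (hb q q.2)).1
      have h3 := (abs_le.1 (hb x hx)).2
      linarith
  refine ⟨n, fun x => max (-c) (min (G x) c), hn0, ?_, ?_, ?_⟩
  · intro x y
    refine (trunc_lip c (G x) (G y)).trans ?_
    have h1 := hLip x y
    have h2 := hLip y x
    rw [dist_comm y x] at h2
    rw [← dist_eq_norm, abs_le]
    constructor <;> linarith
  · intro x
    rw [abs_le]
    exact ⟨le_max_left _ _, max_le (by linarith) (min_le_right _ _)⟩
  · intro x hx
    have h1 := abs_le.1 (hb x hx)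
    have h2 : h x = max (-c) (min (h x) c) := by
      rw [min_eq_left h1.2, max_eq_right h1.1]
    have h3 := trunc_lip c (G x) (h x)
    rw [← h2] at h3
    refine h3.trans ?_
    rw [abs_le]
    constructor <;> linarith [hup x hx, hlo x hx]

theorem thm (hFL1 : G_FL1) (hFL3 : G_FL3) : G_CURVE := by
  intro om a b hom hbd X hX hXD δ hδ
  obtain ⟨D, hDdef⟩ : ∃ D : Set E, D = {x | x ∈ M ∧ (x 0 - a) ^ 2 + (x 1 - b) ^ 2 ≤ 1} := ⟨_, rfl⟩
  have hDmem : ∀ x, x ∈ D ↔ x ∈ M ∧ (x 0 - a) ^ 2 + (x 1 - b) ^ 2 ≤ 1 := by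
    intro x
    rw [hDdef]
    rfl
  have hXD' : X ∈ D := by
    rw [hDmem]
    exact ⟨⟨hX.1.le, hX.2.le⟩, by linarith⟩
  have hMc : IsClosed M := by
    have e : M = (fun x : E => x 2) ⁻¹' (Icc 0 1) := by
      ext x
      rfl
    rw [e]
    exact isClosed_Icc.preimage (continuous_apply 2)
  have hDc : IsCompact D := by
    apply IsCompact.of_isClosed_subset (isCompact_Icc (a := (![a - 1, b - 1, 0] : E))
      (b := (![a + 1, b + 1, 1] : E)))
    · have e : D = M ∩ {x | (x 0 - a) ^ 2 + (x 1 - b) ^ 2 ≤ 1} := by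
        ext x
        rw [hDmem]
        rfl
      rw [e]
      refine hMc.inter (isClosed_le ?_ continuous_const)
      fun_prop
    · intro x hx
      rw [hDmem] at hx
      obtain ⟨⟨h1, h2⟩, h3⟩ := hx
      have h4 : |x 0 - a| ≤ 1 := by
        rw [← sq_le_one_iff_abs_le_one]
        nlinarith [sq_nonneg (x 1 - b)]
      have h5 : |x 1 - b| ≤ 1 := by
        rw [← sq_le_one_iff_abs_le_one]
        nlinarith [sq_nonneg (x 0 - a)]
      rw [abs_le] at h4 h5
      constructor
      · intro i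
        fin_cases i
        · show a - 1 ≤ x 0
          linarith [h4.1]
        · show b - 1 ≤ x 1
          linarith [h5.1]
        · exact h1
      · intro i
        fin_cases i
        · show x 0 ≤ a + 1
          linarith [h4.2]
        · show x 1 ≤ b + 1
          linarith [h5.2]
        · exact h2
  have hbD : ∀ x ∈ D, |om x 0| ≤ 1 / 100 ∧ |om x 1| ≤ 1 / 100 ∧ |om x 2 - 1| ≤ 1 / 100 := by
    intro x hx
    rw [hDmem] at hx
    exact hbd x hx.1 hx.2
  have hom2 : ∀ x ∈ D, 99 / 100 ≤ om x 2 := by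
    intro x hx
    have := (abs_le.1 (hbD x hx).2.2).1
    linarith
  have homc : ∀ k : Fin 3, ContinuousOn (fun x => om x k) D := by
    intro k
    have h1 : ContinuousOn om D := hom.mono (fun x hx => ((hDmem x).1 hx).1)
    exact (continuous_apply k).comp_continuousOn h1
  have hcont : ∀ k : Fin 3, ContinuousOn (fun x => om x k / om x 2) D := by
    intro k
    refine (homc k).div (homc 2) (fun x hx => ?_)
    have := hom2 x hx
    intro h0
    rw [h0] at this
    norm_num at this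
  have hbdd : ∀ k : Fin 3, (∀ x ∈ D, |om x k| ≤ 1 / 100) → ∀ x ∈ D, |om x k / om x 2| ≤ 1 / 99 := by
    intro k hk x hx
    have h1 := hom2 x hx
    have h2 := hk x hx
    have h3 : 0 < om x 2 := by linarith
    rw [abs_div, abs_of_pos h3, div_le_iff₀ h3]
    linarith
  obtain ⟨K0, H0, hK0, hL0, hB0, hA0⟩ := lip_approx D hDc ⟨X, hXD'⟩ _ (hcont 0) (1 / 99)
    (hbdd 0 (fun x hx => (hbD x hx).1)) δ hδ
  obtain ⟨K1, H1, hK1, hL1, hB1, hA1⟩ := lip_approx D hDc ⟨X, hXD'⟩ _ (hcont 1) (1 / 99)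
    (hbdd 1 (fun x hx => (hbD x hx).2.1)) δ hδ
  obtain ⟨G, hG⟩ : ∃ G : ℝ → E → E, G = fun _ x => ![H0 x, H1 x, 1] := ⟨_, rfl⟩
  have hG0 : ∀ s x, G s x 0 = H0 x := fun s x => by rw [hG]; rfl
  have hG1 : ∀ s x, G s x 1 = H1 x := fun s x => by rw [hG]; rfl
  have hG2 : ∀ s x, G s x 2 = 1 := fun s x => by rw [hG]; rfl
  have hGlip : ∀ s x y, ‖G s x - G s y‖ ≤ max K0 K1 * ‖x - y‖ := by
    intro s x y
    have hmx : 0 ≤ max K0 K1 * ‖x - y‖ := by
      have : 0 ≤ max K0 K1 := hK0.trans (le_max_left _ _)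
      positivity
    rw [pi_norm_le_iff_of_nonneg hmx]
    intro i
    rw [Pi.sub_apply, Real.norm_eq_abs]
    fin_cases i
    · show |G s x 0 - G s y 0| ≤ _
      rw [hG0, hG0]
      exact (hL0 x y).trans (mul_le_mul_of_nonneg_right (le_max_left _ _) (norm_nonneg _))
    · show |G s x 1 - G s y 1| ≤ _
      rw [hG1, hG1]
      exact (hL1 x y).trans (mul_le_mul_of_nonneg_right (le_max_right _ _) (norm_nonneg _))
    · show |G s x 2 - G s y 2| ≤ _
      rw [hG2, hG2]
      simpa using hmx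
  have hcontH : ∀ (K : ℝ) (H : E → ℝ), 0 ≤ K → (∀ x y, |H x - H y| ≤ K * ‖x - y‖) →
      Continuous H := by
    intro K H hK hL
    have : LipschitzWith K.toNNReal H := by
      apply LipschitzWith.of_dist_le_mul
      intro x y
      rw [Real.dist_eq, dist_eq_norm, Real.coe_toNNReal K hK]
      exact hL x y
    exact this.continuous
  have hLF : LipField 1 (max K0 K1) G := by
    refine ⟨hK0.trans (le_max_left _ _), ?_, fun s _ x y => hGlip s x y⟩
    apply Continuous.continuousOn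
    rw [continuous_pi_iff]
    intro i
    fin_cases i
    · show Continuous (fun z : ℝ × E => G z.1 z.2 0)
      simp only [hG0]
      exact (hcontH K0 H0 hK0 hL0).comp continuous_snd
    · show Continuous (fun z : ℝ × E => G z.1 z.2 1)
      simp only [hG1]
      exact (hcontH K1 H1 hK1 hL1).comp continuous_snd
    · show Continuous (fun z : ℝ × E => G z.1 z.2 2)
      simp only [hG2]
      exact continuous_const
  obtain ⟨φ, hφ⟩ := hFL1 1 _ G zero_le_one hLF
  have hX2 : X 2 ∈ Icc (0 : ℝ) 1 := ⟨hX.1.le, hX.2.le⟩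
  obtain ⟨X0, hX0⟩ := hFL3 1 _ G φ zero_le_one hLF hφ (X 2) hX2 X
  have hder : ∀ s ∈ Icc (0 : ℝ) 1, ∀ i, HasDerivWithinAt (fun τ => φ τ X0 i) (G s (φ s X0) i)
      (Icc 0 1) s := by
    intro s hs i
    exact (hasDerivWithinAt_pi.1 (hφ.2 X0 s hs)) i
  -- the third coordinate
  have hthird : ∀ z ∈ Icc (0 : ℝ) 1, φ z X0 2 = z := by
    have hconst : ∀ z ∈ Icc (0 : ℝ) 1, ∀ z' ∈ Icc (0 : ℝ) 1, φ z X0 2 - z = φ z' X0 2 - z' := by
      intro z hz z' hz'
      have hd : ∀ s ∈ Icc (0 : ℝ) 1, HasDerivWithinAt (fun τ => φ τ X0 2 - τ) 0 (Icc 0 1) s := by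
        intro s hs
        have h1 := (hder s hs 2).sub (hasDerivWithinAt_id s (Icc 0 1))
        rw [hG2, sub_self] at h1
        exact h1
      have := Convex.norm_image_sub_le_of_norm_hasDerivWithin_le (C := 0) hd
        (fun s _ => by simp) (convex_Icc 0 1) hz' hz
      simp only [zero_mul, norm_le_zero_iff] at this
      linarith
    intro z hz
    have := hconst z hz (X 2) hX2
    rw [hX0] at this
    linarith
  have hhor : ∀ k : Fin 3, (∀ s x, |G s x k| ≤ 1 / 99) → ∀ z ∈ Icc (0 : ℝ) 1,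
      |φ z X0 k - X k| ≤ 1 / 99 := by
    intro k hk z hz
    have := Convex.norm_image_sub_le_of_norm_hasDerivWithin_le (C := 1 / 99)
      (fun s hs => hder s hs k) (fun s _ => by rw [Real.norm_eq_abs]; exact hk _ _)
      (convex_Icc 0 1) hX2 hz
    rw [hX0, Real.norm_eq_abs, Real.norm_eq_abs] at this
    refine this.trans ?_
    have h1 : |z - X 2| ≤ 1 := by
      rw [abs_le]
      constructor <;> linarith [hz.1, hz.2, hX2.1, hX2.2]
    linarith
  have hin : ∀ z ∈ Icc (0 : ℝ) 1, (φ z X0 0 - a) ^ 2 + (φ z X0 1 - b) ^ 2 ≤ 1 := by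
    intro z hz
    have h1 := hhor 0 (fun s x => by rw [hG0]; exact hB0 x) z hz
    have h2 := hhor 1 (fun s x => by rw [hG1]; exact hB1 x) z hz
    have h3 : (φ z X0 0 - X 0) ^ 2 ≤ (1 / 99) ^ 2 := sq_le_sq' (abs_le.1 h1).1 (abs_le.1 h1).2
    have h4 : (φ z X0 1 - X 1) ^ 2 ≤ (1 / 99) ^ 2 := sq_le_sq' (abs_le.1 h2).1 (abs_le.1 h2).2
    nlinarith [sq_nonneg ((X 0 - a) - 20 * (φ z X0 0 - X 0)),
      sq_nonneg ((X 1 - b) - 20 * (φ z X0 1 - X 1))]
  refine ⟨fun z => φ z X0, fun z => G z (φ z X0), hX0, ?_⟩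
  intro z hz
  refine ⟨hthird z hz, hin z hz, hφ.2 X0 z hz, ?_⟩
  have hγD : φ z X0 ∈ D := by
    rw [hDmem]
    refine ⟨⟨?_, ?_⟩, hin z hz⟩
    · rw [hthird z hz]
      exact hz.1
    · rw [hthird z hz]
      exact hz.2
  rw [pi_norm_le_iff_of_nonneg hδ.le]
  intro i
  rw [Pi.sub_apply, Pi.smul_apply, Real.norm_eq_abs, smul_eq_mul]
  fin_cases i
  · show |G z (φ z X0) 0 - (om (φ z X0) 2)⁻¹ * om (φ z X0) 0| ≤ δ
    rw [hG0]
    have := hA0 _ hγD
    rwa [div_eq_inv_mul] at this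
  · show |G z (φ z X0) 1 - (om (φ z X0) 2)⁻¹ * om (φ z X0) 1| ≤ δ
    rw [hG1]
    have := hA1 _ hγD
    rwa [div_eq_inv_mul] at this
  · show |G z (φ z X0) 2 - (om (φ z X0) 2)⁻¹ * om (φ z X0) 2| ≤ δ
    rw [hG2]
    have h1 := hom2 _ hγD
    rw [inv_mul_cancel₀ (by linarith)]
    simpa using hδ.le

end Pool.Agent.Helper29.Slab
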